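import Pool.Agent.Run7.h568.DG.Iface

/-!
# Dense Thurston geodesics: the gauge

`S_gauge` of the interface of helper568, from `S_H` and `S_H00`.
-/

open Real Matrix

noncomputable section

namespace Run7.h483.DG

open Run7.h568.DG

theorem sl_det (g : SL) : g.1 0 0 * g.1 1 1 - g.1 0 1 * g.1 1 0 = 1 := by
  have := g.2
  rwa [Matrix.det_fin_two] at this

theorem sl_ext4 (g h : SL) (h00 : g.1 0 0 = h.1 0 0) (h01 : g.1 0 1 = h.1 0 1)
    (h10 : g.1 1 0 = h.1 1 0) (h11 : g.1 1 1 = h.1 1 1) : g = h := by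
  apply Subtype.ext
  ext i j
  fin_cases i <;> fin_cases j <;> assumption

theorem sl_ext3 (g h : SL) (h00 : g.1 0 0 = h.1 0 0) (h01 : g.1 0 1 = h.1 0 1)
    (h11 : g.1 1 1 = h.1 1 1) (hne : g.1 0 1 ≠ 0) : g = h := by
  have e1 := sl_det g
  have e2 := sl_det h
  have h10 : g.1 1 0 = h.1 1 0 := by
    rw [← h00, ← h01, ← h11] at e2
    have : g.1 0 1 * g.1 1 0 = g.1 0 1 * h.1 1 0 := by linarith
    exact mul_left_cancel₀ hne this
  exact sl_ext4 g h h00 h01 h10 h11

theorem mul00 (g h : SL) : (g * h).1 0 0 = g.1 0 0 * h.1 0 0 + g.1 0 1 * h.1 1 0 := by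
  have : (g * h).1 = g.1 * h.1 := rfl
  rw [this, Matrix.mul_apply, Fin.sum_univ_two]

theorem mul01 (g h : SL) : (g * h).1 0 1 = g.1 0 0 * h.1 0 1 + g.1 0 1 * h.1 1 1 := by
  have : (g * h).1 = g.1 * h.1 := rfl
  rw [this, Matrix.mul_apply, Fin.sum_univ_two]

theorem mul10 (g h : SL) : (g * h).1 1 0 = g.1 1 0 * h.1 0 0 + g.1 1 1 * h.1 1 0 := by
  have : (g * h).1 = g.1 * h.1 := rfl
  rw [this, Matrix.mul_apply, Fin.sum_univ_two]

theorem mul11 (g h : SL) : (g * h).1 1 1 = g.1 1 0 * h.1 0 1 + g.1 1 1 * h.1 1 1 := by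
  have : (g * h).1 = g.1 * h.1 := rfl
  rw [this, Matrix.mul_apply, Fin.sum_univ_two]

theorem inv_val (g : SL) : (g⁻¹).1 = !![g.1 1 1, -g.1 0 1; -g.1 1 0, g.1 0 0] := by
  have : (g⁻¹).1 = g.1.adjugate := rfl
  rw [this, Matrix.adjugate_fin_two]

theorem inv00 (g : SL) : (g⁻¹).1 0 0 = g.1 1 1 := by rw [inv_val]; rfl

theorem inv01 (g : SL) : (g⁻¹).1 0 1 = -g.1 0 1 := by rw [inv_val]; rfl

theorem inv10 (g : SL) : (g⁻¹).1 1 0 = -g.1 1 0 := by rw [inv_val]; rfl

theorem inv11 (g : SL) : (g⁻¹).1 1 1 = g.1 0 0 := by rw [inv_val]; rfl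

theorem W00 : W.1 0 0 = 1 := rfl
theorem W01 : W.1 0 1 = -1 := rfl
theorem W10 : W.1 1 0 = 1 := rfl
theorem W11 : W.1 1 1 = 0 := rfl
theorem E00 (s : ℝ) : (E s).1 0 0 = 0 := rfl
theorem E01 (s : ℝ) : (E s).1 0 1 = exp (s / 2) := rfl
theorem E10 (s : ℝ) : (E s).1 1 0 = -exp (-s / 2) := rfl
theorem E11 (s : ℝ) : (E s).1 1 1 = 0 := rfl

theorem neg_val (g : SL) (i j : Fin 2) : (-g).1 i j = -(g.1 i j) := by
  have : (-g).1 = -g.1 := rfl
  rw [this, Matrix.neg_apply]

theorem one00 : (1 : SL).1 0 0 = 1 := rfl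
theorem one01 : (1 : SL).1 0 1 = 0 := rfl
theorem one10 : (1 : SL).1 1 0 = 0 := rfl
theorem one11 : (1 : SL).1 1 1 = 1 := rfl

theorem W3 : W * W * W = (-1 : SL) := by
  apply sl_ext4 <;>
  simp only [mul00, mul01, mul10, mul11, W00, W01, W10, W11, neg_val, one00, one01, one10, one11]
    <;> norm_num

theorem exp_neg_half (s : ℝ) : exp (-s / 2) = (exp (s / 2))⁻¹ := by
  rw [← Real.exp_neg]; congr 1; ring

theorem EE (s : ℝ) : E s * E s = (-1 : SL) := by
  have h : exp (s / 2) ≠ 0 := (exp_pos _).ne'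
  apply sl_ext4 <;>
  simp only [mul00, mul01, mul10, mul11, E00, E01, E10, E11, neg_val, one00, one01, one10, one11,
    exp_neg_half]
    <;> field_simp <;> ring

theorem WE (s : ℝ) : W * E s = step true s := by
  have h : exp (s / 2) ≠ 0 := (exp_pos _).ne'
  apply sl_ext4 <;>
  simp [step, U, Del, mul00, mul01, mul10, mul11, E00, E01, E10, E11, W00, W01, W10, W11]

theorem WWE (s : ℝ) : W * W * E s = step false s := by
  have h : exp (s / 2) ≠ 0 := (exp_pos _).ne'
  apply sl_ext4 <;>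
  simp [step, U, Del, mul00, mul01, mul10, mul11, E00, E01, E10, E11, W00, W01, W10, W11]

variable {D : Type} [Fintype D] [DecidableEq D]

/-- The cyclic identity of a triangle. -/
theorem cyc (hH : S_H) (T : Tri D) (t : TD T) (x : D → ℝ) (hx : ∀ d, x (T.io d) = x d) (d : D) :
    t.H x d * W * (t.H x (T.sg d) * W) * (t.H x (T.sg (T.sg d)) * W) = (-1 : SL) := by
  have h0 := (hH T t x hx d).1
  have h1 := (hH T t x hx (T.sg d)).1
  have h2 := (hH T t x hx (T.sg (T.sg d))).1
  rw [T.sg3 d] at h2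
  rw [h0, h1, h2]
  have key : t.Pd x d (t.c d) * (W * (t.Pd x (T.sg d) (t.c (T.sg d)))⁻¹ * W⁻¹) * W *
      (t.Pd x (T.sg d) (t.c (T.sg d)) *
        (W * (t.Pd x (T.sg (T.sg d)) (t.c (T.sg (T.sg d))))⁻¹ * W⁻¹) * W) *
      (t.Pd x (T.sg (T.sg d)) (t.c (T.sg (T.sg d))) *
        (W * (t.Pd x d (t.c d))⁻¹ * W⁻¹) * W) =
      t.Pd x d (t.c d) * (W * W * W) * (t.Pd x d (t.c d))⁻¹ := by group
  rw [key, W3]
  simp

theorem gauge (hH : S_H) (hH0 : S_H00) : S_gauge := by
  intro D _ _ T t x hx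
  set L : D → ℝ := fun d => (t.H x d).1 0 0 with hL
  have Lpos : ∀ d, 0 < L d := fun d => (hH0 T t x hx d).1
  have Lio : ∀ d, L (T.io d) = L d := fun d => (hH0 T t x hx d).2
  set a : D → ℝ := fun d => √(L d * L (T.sg (T.sg d)) / L (T.sg d)) with ha
  have apos : ∀ d, 0 < a d := fun d =>
    Real.sqrt_pos.mpr (div_pos (mul_pos (Lpos _) (Lpos _)) (Lpos _))
  have asq : ∀ d, a d ^ 2 = L d * L (T.sg (T.sg d)) / L (T.sg d) := fun d =>
    Real.sq_sqrt (div_pos (mul_pos (Lpos _) (Lpos _)) (Lpos _)).le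
  have aa : ∀ d, a d * a (T.sg d) = L d := by
    intro d
    have h1 : (a d * a (T.sg d)) ^ 2 = L d ^ 2 := by
      rw [mul_pow, asq d, asq (T.sg d), T.sg3 d]
      have := (Lpos (T.sg d)).ne'
      have := (Lpos (T.sg (T.sg d))).ne'
      field_simp
    have h2 := (mul_pos (apos d) (apos (T.sg d))).le
    exact (pow_left_inj₀ h2 (Lpos d).le (by norm_num)).mp h1
  set γ : D → ℝ := fun d => (t.H x d).1 1 0 / a (T.sg d) with hγ
  have gdet : ∀ d, (!![a d, 0; γ d, (a d)⁻¹] : Matrix (Fin 2) (Fin 2) ℝ).det = 1 := by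
    intro d
    rw [Matrix.det_fin_two]
    simp [(apos d).ne']
  set g : D → SL := fun d => ⟨!![a d, 0; γ d, (a d)⁻¹], gdet d⟩ with hg
  have g00 : ∀ d, (g d).1 0 0 = a d := fun d => rfl
  have g01 : ∀ d, (g d).1 0 1 = 0 := fun d => rfl
  have g10 : ∀ d, (g d).1 1 0 = γ d := fun d => rfl
  have g11 : ∀ d, (g d).1 1 1 = (a d)⁻¹ := fun d => rfl
  refine ⟨g, fun d => ⟨?_, ?_, ?_⟩⟩
  · -- the rotation of the triangle
    have hc := cyc hH T t x hx d
    have a0 := (apos d).ne'
    have a1 := (apos (T.sg d)).ne'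
    have a2 := (apos (T.sg (T.sg d))).ne'
    have aa0 := aa d
    have aa1 := aa (T.sg d)
    have aa2 := aa (T.sg (T.sg d))
    rw [T.sg3 d] at aa2
    have hc' : t.H x d * W * (t.H x (T.sg d) * W) =
        -(t.H x (T.sg (T.sg d)) * W)⁻¹ := by
      have : t.H x d * W * (t.H x (T.sg d) * W) =
          (-1 : SL) * (t.H x (T.sg (T.sg d)) * W)⁻¹ := by
        rw [← hc]; group
      rw [this]; simp
    have hc01 := congrArg (fun M : SL => M.1 0 1) hc'
    simp only [neg_val, inv01, mul00, mul01, mul10, mul11, W00, W01, W10, W11] at hc01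
    have e0 : (t.H x d).1 0 0 = L d := rfl
    have e1 : (t.H x (T.sg d)).1 0 0 = L (T.sg d) := rfl
    have e2 : (t.H x (T.sg (T.sg d))).1 0 0 = L (T.sg (T.sg d)) := rfl
    rw [e0, e1, e2] at hc01
    apply sl_ext3
    · simp only [mul00, mul01, mul10, mul11, W00, W01, W10, W11, g00, g01, g10, g11]
      rw [e0]
      have hq : γ (T.sg d) = (t.H x (T.sg d)).1 1 0 / a (T.sg (T.sg d)) := rfl
      rw [hq]
      have k1 : a (T.sg (T.sg d)) * ((L d * 1 + (t.H x d).1 0 1 * 1) * a (T.sg d) +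
          (L d * -1 + (t.H x d).1 0 1 * 0) * ((t.H x (T.sg d)).1 1 0 / a (T.sg (T.sg d)))) =
          a (T.sg (T.sg d)) * (a d * 1 + 0 * 1) := by
        have k2 : a (T.sg (T.sg d)) * ((t.H x (T.sg d)).1 1 0 / a (T.sg (T.sg d))) =
          (t.H x (T.sg d)).1 1 0 := by field_simp
        have k3 : a (T.sg (T.sg d)) * ((L d * 1 + (t.H x d).1 0 1 * 1) * a (T.sg d) +
          (L d * -1 + (t.H x d).1 0 1 * 0) * ((t.H x (T.sg d)).1 1 0 / a (T.sg (T.sg d)))) =
          (L d + (t.H x d).1 0 1) * (a (T.sg d) * a (T.sg (T.sg d))) -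
            L d * (a (T.sg (T.sg d)) * ((t.H x (T.sg d)).1 1 0 / a (T.sg (T.sg d)))) := by ring
        rw [k3, k2, aa1]
        have k4 : a (T.sg (T.sg d)) * (a d * 1 + 0 * 1) = a (T.sg (T.sg d)) * a d := by ring
        rw [k4, aa2]
        linarith
      exact mul_left_cancel₀ a2 k1
    · simp only [mul00, mul01, mul10, mul11, W00, W01, W10, W11, g00, g01, g10, g11]
      rw [e0, ← aa0]
      field_simp
      ring
    · simp only [mul00, mul01, mul10, mul11, W00, W01, W10, W11, g00, g01, g10, g11]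
      have hq : γ d = (t.H x d).1 1 0 / a (T.sg d) := rfl
      rw [hq]
      field_simp
      ring
    · simp only [mul00, mul01, mul10, mul11, W00, W01, W10, W11, g00, g01, g10, g11]
      rw [e0]
      have q1 : 0 < L d * (a (T.sg d))⁻¹ := mul_pos (Lpos d) (inv_pos.mpr (apos _))
      intro h
      linarith
  · -- crossing an edge
    have hio := (hH T t x hx d).2
    have a0 := (apos d).ne'
    have a1 := (apos (T.sg d)).ne'
    have b0 := (apos (T.io d)).ne'
    have b1 := (apos (T.sg (T.io d))).ne'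
    have aa0 := aa d
    have bb0 := aa (T.io d)
    rw [Lio d] at bb0
    have e0 : (t.H x d).1 0 0 = L d := rfl
    set e : ℝ := exp (x d / 2) with he
    have epos : 0 < e := exp_pos _
    have e1 : exp (-(x d) / 2) = e⁻¹ := exp_neg_half _
    set f : ℝ := exp (t.tw x d / 2) with hf
    have fpos : 0 < f := exp_pos _
    have f1 : exp (-(t.tw x d) / 2) = f⁻¹ := exp_neg_half _
    -- `f a b = L e`
    have hfe : f * (a d * a (T.io d)) = L d * e := by
      have hf2 : f ^ 2 = e ^ 2 * (L (T.sg d) / L (T.sg (T.sg d)) *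
          (L (T.sg (T.io d)) / L (T.sg (T.sg (T.io d))))) := by
        have q1 : f ^ 2 = exp (t.tw x d) := by
          rw [hf, ← Real.exp_nat_mul]; congr 1; push_cast; ring
        have q2 : e ^ 2 = exp (x d) := by
          rw [he, ← Real.exp_nat_mul]; congr 1; push_cast; ring
        rw [q1, q2]
        unfold TD.tw TD.Lam
        rw [Real.exp_sub, Real.exp_add, Real.exp_sub, Real.exp_add, Real.exp_log (Lpos _),
          Real.exp_log (Lpos _), Real.exp_log (Lpos _), Real.exp_log (Lpos _)]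
        have := (Lpos (T.sg (T.sg d))).ne'
        have := (Lpos (T.sg (T.sg (T.io d)))).ne'
        simp only [hL]
        field_simp
      have h1 : (f * (a d * a (T.io d))) ^ 2 = (L d * e) ^ 2 := by
        rw [mul_pow, mul_pow, hf2, asq d, asq (T.io d), Lio d]
        have := (Lpos (T.sg d)).ne'
        have := (Lpos (T.sg (T.sg d))).ne'
        have := (Lpos (T.sg (T.io d))).ne'
        have := (Lpos (T.sg (T.sg (T.io d)))).ne'
        field_simp
      exact (pow_left_inj₀ (mul_pos fpos (mul_pos (apos _) (apos _))).le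
        (mul_pos (Lpos d) epos).le (by norm_num)).mp h1
    have hC : (t.H x (T.io d)).1 1 0 = (t.H x d).1 0 1 * (e⁻¹ * e⁻¹) := by
      rw [hio]
      simp only [mul00, mul01, mul10, mul11, inv00, inv01, inv10, inv11, E00, E01, E10, E11, e1]
      ring
    have hq0 : γ d = (t.H x d).1 1 0 / a (T.sg d) := rfl
    have hq1 : γ (T.io d) = (t.H x (T.io d)).1 1 0 / a (T.sg (T.io d)) := rfl
    apply sl_ext3
    · simp only [mul00, mul01, mul10, mul11, E00, E01, E10, E11, g00, g01, g10, g11, e1, f1]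
      rw [hq1, hC, e0, ← he, ← bb0]
      field_simp
      ring
    · simp only [mul00, mul01, mul10, mul11, E00, E01, E10, E11, g00, g01, g10, g11, e1, f1]
      rw [e0, ← he, ← hf]
      have : L d * e * (a (T.io d))⁻¹ = a d * f := by
        rw [← hfe]; field_simp
      linarith
    · simp only [mul00, mul01, mul10, mul11, E00, E01, E10, E11, g00, g01, g10, g11, e1, f1]
      rw [hq0, ← he, ← hf]
      have h3 : e * (a (T.io d))⁻¹ = f / a (T.sg d) := by
        rw [eq_div_iff a1]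
        have : f * (a d * a (T.io d)) = a d * a (T.sg d) * e := by rw [hfe, aa0]
        have h4 : f * a (T.io d) = a (T.sg d) * e := by
          apply mul_left_cancel₀ a0; linarith
        field_simp
        linarith
      have : (t.H x d).1 1 0 * (e * (a (T.io d))⁻¹) = (t.H x d).1 1 0 * (f / a (T.sg d)) := by
        rw [h3]
      have h5 : (t.H x d).1 1 0 / a (T.sg d) * f = (t.H x d).1 1 0 * (f / a (T.sg d)) := by ring
      linarith
    · simp only [mul00, mul01, mul10, mul11, E00, E01, E10, E11, g00, g01, g10, g11, e1, f1]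
      rw [e0, ← he]
      have : 0 < L d * e * (a (T.io d))⁻¹ :=
        mul_pos (mul_pos (Lpos d) epos) (inv_pos.mpr (apos _))
      intro h
      linarith
  · -- the first entry
    have a0 := (apos d).ne'
    have a1 := (apos (T.sg d)).ne'
    have aa0 := aa d
    have hd := sl_det (t.H x d)
    have e0 : (t.H x d).1 0 0 = L d := rfl
    have hq0 : γ d = (t.H x d).1 1 0 / a (T.sg d) := rfl
    simp only [mul00, mul01, mul10, mul11, inv00, inv01, inv10, inv11, g00, g01, g10, g11]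
    rw [hq0]
    rw [e0] at hd ⊢
    have hLne := (Lpos d).ne'
    have : ∀ B C D' : ℝ, L d * D' - B * C = 1 →
        ((a d)⁻¹ * D' + -0 * -C) * a d + ((a d)⁻¹ * -B + -0 * L d) * (C / a (T.sg d)) =
          (L d)⁻¹ := by
      intro B C D' h
      rw [← aa0] at h ⊢
      field_simp
      linarith
    exact this _ _ _ hd

end Run7.h483.DG
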