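import Pool.Agent.Run7.h483.DG.Gauge

/-!
# Dense Thurston geodesics: telescoping

`S_tele` and `S_loop` of the interface of helper568.
-/

open Real Matrix

noncomputable section

namespace Run7.h483.DG

open Run7.h568.DG

variable {D : Type} [Fintype D] [DecidableEq D]

theorem Pd_zero {T : Tri D} (t : TD T) (x : D → ℝ) (d : D) : t.Pd x d 0 = 1 := by
  simp [TD.Pd]

theorem Pd_succ {T : Tri D} (t : TD T) (x : D → ℝ) (d : D) (n : ℕ) :
    t.Pd x d (n + 1) = t.Pd x d n * t.str x (d, n) ^ t.m (d, n) := by
  simp [TD.Pd, List.range_succ]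

theorem snext_lt (T : Tri D) (c : D → ℕ) (hc : T.Match c) (v : D × ℕ)
    (h : v.2 < T.num c v.1) : (T.snext c v).2 < T.num c (T.snext c v).1 := by
  obtain ⟨d, i⟩ := v
  by_cases h1 : i < c d
  · have e : T.snext c (d, i) = (T.io (T.sg (T.sg d)), i) := by simp [Tri.snext, h1]
    rw [e]
    simp only
    rw [hc]
    unfold Tri.num
    rw [T.sg3]
    omega
  · have e : T.snext c (d, i) = (T.io (T.sg d), i - c d + c (T.sg (T.sg d))) := by
      simp [Tri.snext, h1]
    rw [e]
    simp only
    rw [hc]
    unfold Tri.num at h ⊢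
    simp only at h
    omega

theorem nxt_sbit (T : Tri D) (c : D → ℕ) (v : D × ℕ) :
    T.nxt (Tri.sbit c v) v.1 = (T.snext c v).1 := by
  obtain ⟨d, i⟩ := v
  by_cases h1 : i < c d
  · have h2 : ¬ c d ≤ i := by omega
    simp [Tri.snext, Tri.nxt, Tri.sbit, Tri.turn, h1, h2]
  · have h2 : c d ≤ i := by omega
    simp [Tri.snext, Tri.nxt, Tri.sbit, Tri.turn, h1, h2]

theorem conjz (g s : SL) (m : ℤ) : (g⁻¹ * s⁻¹ * g) ^ m = g⁻¹ * (s ^ m)⁻¹ * g := by
  have h := conj_zpow (i := m) (a := g⁻¹) (b := s⁻¹)
  rw [inv_inv, _root_.inv_zpow] at h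
  exact h

/-- Partial products along the reversed dart. -/
theorem rev_part (hS : S_str) (T : Tri D) (t : TD T) (x : D → ℝ) (hx : ∀ d, x (T.io d) = x d)
    (d : D) : ∀ n, n ≤ T.num t.c d → t.Pd x (T.io d) n =
      (E (x d))⁻¹ * (t.H x d)⁻¹ * t.Pd x d (T.num t.c d - n) * E (x d) := by
  intro n
  induction n with
  | zero =>
    intro _
    rw [Pd_zero, Nat.sub_zero]
    unfold TD.H
    group
  | succ n ih =>
    intro hn
    have ih' := ih (by omega)
    obtain ⟨i, hi⟩ : ∃ i, T.num t.c d = i + 1 + n := ⟨T.num t.c d - 1 - n, by omega⟩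
    have hiN : i < T.num t.c d := by omega
    have e1 : T.num t.c d - n = i + 1 := by omega
    have e2 : T.num t.c d - (n + 1) = i := by omega
    have e3 : T.num t.c d - 1 - i = n := by omega
    rw [e1, Pd_succ t x d i] at ih'
    rw [e2, Pd_succ t x (T.io d) n, ih']
    have hs := (hS T t x hx d i hiN).2.2.1
    have hm := t.m_rev d i hiN
    rw [e3] at hs hm
    rw [hs, hm, conjz]
    group

/-- One more strand on both sides. -/
theorem shift (hS : S_str) (T : Tri D) (t : TD T) (x : D → ℝ) (hx : ∀ d, x (T.io d) = x d)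
    (d : D) (i : ℕ) (hi : i < T.num t.c d) :
    t.Pd x d (i + 1) * step (Tri.sbit t.c (d, i)) (x (T.turn (Tri.sbit t.c (d, i)) d)) *
      (t.Pd x (T.snext t.c (d, i)).1 ((T.snext t.c (d, i)).2 + 1))⁻¹ =
    t.Pd x d i * step (Tri.sbit t.c (d, i)) (x (T.turn (Tri.sbit t.c (d, i)) d)) *
      (t.Pd x (T.snext t.c (d, i)).1 (T.snext t.c (d, i)).2)⁻¹ := by
  have hs := (hS T t x hx d i hi).2.1
  have hm := t.m_next d i hi
  rw [Pd_succ, Pd_succ]
  have e : ((T.snext t.c (d, i)).1, (T.snext t.c (d, i)).2) = T.snext t.c (d, i) := rfl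
  rw [e, hm]
  generalize step (Tri.sbit t.c (d, i)) (x (T.turn (Tri.sbit t.c (d, i)) d)) = s at hs ⊢
  generalize t.str x (T.snext t.c (d, i)) = S' at hs ⊢
  have h1 : t.str x (d, i) = s * S' * s⁻¹ := by
    rw [← hs]; group
  rw [h1, conj_zpow]
  group

theorem tele (hS : S_str) (hH : S_H) : S_tele := by
  intro D _ _ T t x hx d i hi
  constructor
  · intro hci
    -- base
    have base : t.H x d * W * (t.H x (T.sg d) * E (x (T.sg d))) =
        t.Pd x d (t.c d) * step true (x (T.sg d)) *
          (t.Pd x (T.io (T.sg d)) (t.c (T.sg (T.sg d))))⁻¹ := by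
      have hr := rev_part hS T t x hx (T.sg d) (t.c (T.sg (T.sg d)))
        (by unfold Tri.num; omega)
      have hn : T.num t.c (T.sg d) - t.c (T.sg (T.sg d)) = t.c (T.sg d) := by
        unfold Tri.num; omega
      rw [hn] at hr
      rw [(hH T t x hx d).1, hr, ← WE]
      group
    have hk : ∀ k, t.c d + k < T.num t.c d →
        t.H x d * W * (t.H x (T.sg d) * E (x (T.sg d))) =
        t.Pd x d (t.c d + k) * step true (x (T.sg d)) *
          (t.Pd x (T.io (T.sg d)) (k + t.c (T.sg (T.sg d))))⁻¹ := by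
      intro k
      induction k with
      | zero =>
        intro _
        rw [Nat.add_zero, Nat.zero_add]
        exact base
      | succ k ih =>
        intro hk
        have hk' : t.c d + k < T.num t.c d := by omega
        rw [ih hk']
        have h := shift hS T t x hx d (t.c d + k) hk'
        have hb : Tri.sbit t.c (d, t.c d + k) = true := by simp [Tri.sbit]
        have hn : T.snext t.c (d, t.c d + k) =
            (T.io (T.sg d), k + t.c (T.sg (T.sg d))) := by
          simp [Tri.snext]
        rw [hb, hn] at h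
        have ht : T.turn true d = T.sg d := rfl
        rw [ht] at h
        simp only at h
        rw [← h]
        have e1 : t.c d + (k + 1) = t.c d + k + 1 := by omega
        have e2 : k + 1 + t.c (T.sg (T.sg d)) = k + t.c (T.sg (T.sg d)) + 1 := by omega
        rw [e1, e2]
    have hn : T.snext t.c (d, i) = (T.io (T.sg d), i - t.c d + t.c (T.sg (T.sg d))) := by
      have : ¬ i < t.c d := by omega
      simp [Tri.snext, this]
    rw [hn]
    have := hk (i - t.c d) (by omega)
    rw [Nat.add_sub_cancel' hci] at this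
    exact this
  · intro hci
    have base : t.H x d * W * (t.H x (T.sg d) * W) *
        (t.H x (T.sg (T.sg d)) * E (x (T.sg (T.sg d)))) = step false (x (T.sg (T.sg d))) := by
      have h2 := (hH T t x hx (T.sg (T.sg d))).1
      rw [T.sg3 d] at h2
      rw [(hH T t x hx d).1, (hH T t x hx (T.sg d)).1, h2, ← WWE]
      have key : t.Pd x d (t.c d) * (W * (t.Pd x (T.sg d) (t.c (T.sg d)))⁻¹ * W⁻¹) * W *
          (t.Pd x (T.sg d) (t.c (T.sg d)) *
            (W * (t.Pd x (T.sg (T.sg d)) (t.c (T.sg (T.sg d))))⁻¹ * W⁻¹) * W) *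
          (t.Pd x (T.sg (T.sg d)) (t.c (T.sg (T.sg d))) *
            (W * (t.Pd x d (t.c d))⁻¹ * W⁻¹) * E (x (T.sg (T.sg d)))) =
          t.Pd x d (t.c d) * (W * W * W) * (t.Pd x d (t.c d))⁻¹ *
            (W⁻¹ * E (x (T.sg (T.sg d)))) := by group
      rw [key, W3]
      have k2 : t.Pd x d (t.c d) * (-1 : SL) * (t.Pd x d (t.c d))⁻¹ = W * W * W := by
        rw [W3]; simp
      rw [k2]
      group
    have hk : ∀ k, k < t.c d →
        t.H x d * W * (t.H x (T.sg d) * W) *
          (t.H x (T.sg (T.sg d)) * E (x (T.sg (T.sg d)))) =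
        t.Pd x d k * step false (x (T.sg (T.sg d))) *
          (t.Pd x (T.io (T.sg (T.sg d))) k)⁻¹ := by
      intro k
      induction k with
      | zero =>
        intro _
        rw [Pd_zero, Pd_zero, base]
        simp
      | succ k ih =>
        intro hk
        have hk' : k < T.num t.c d := by unfold Tri.num; omega
        rw [ih (by omega)]
        have h := shift hS T t x hx d k hk'
        have hb : Tri.sbit t.c (d, k) = false := by
          simp [Tri.sbit]; omega
        have hn : T.snext t.c (d, k) = (T.io (T.sg (T.sg d)), k) := by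
          have : k < t.c d := by omega
          simp [Tri.snext, this]
        rw [hb, hn] at h
        have ht : T.turn false d = T.sg (T.sg d) := rfl
        rw [ht] at h
        simp only at h
        rw [← h]
    have hn : T.snext t.c (d, i) = (T.io (T.sg (T.sg d)), i) := by
      simp [Tri.snext, hci]
    rw [hn]
    exact hk i hci

/-- One step of a strand in the twisted surface. -/
theorem onestep (hT : S_tele) (T : Tri D) (t : TD T) (x : D → ℝ)
    (hx : ∀ d, x (T.io d) = x d) (g : D → SL)
    (hg : ∀ d, t.H x d * W * g (T.sg d) = g d * W ∧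
      t.H x d * E (x d) * g (T.io d) = g d * E (t.tw x d)) (v : D × ℕ)
    (hv : v.2 < T.num t.c v.1) :
    step (Tri.sbit t.c v) (t.tw x (T.turn (Tri.sbit t.c v) v.1)) =
      (g v.1)⁻¹ * t.Pd x v.1 v.2 * step (Tri.sbit t.c v) (x (T.turn (Tri.sbit t.c v) v.1)) *
        (t.Pd x (T.snext t.c v).1 (T.snext t.c v).2)⁻¹ * g (T.snext t.c v).1 := by
  obtain ⟨d, i⟩ := v
  simp only at hv ⊢
  by_cases hci : t.c d ≤ i
  · have hb : Tri.sbit t.c (d, i) = true := by simp [Tri.sbit, hci]
    have hlt : ¬ i < t.c d := by omega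
    have hn : (T.snext t.c (d, i)).1 = T.io (T.sg d) := by simp [Tri.snext, hlt]
    have htl := (hT T t x hx d i hv).1 hci
    have ht : T.turn true d = T.sg d := rfl
    rw [hb, ht]
    have e1 : g d * step true (t.tw x (T.sg d)) =
        t.H x d * W * (t.H x (T.sg d) * E (x (T.sg d))) * g (T.io (T.sg d)) := by
      rw [← WE, ← mul_assoc, ← (hg d).1]
      have := (hg (T.sg d)).2
      calc t.H x d * W * g (T.sg d) * E (t.tw x (T.sg d))
          = t.H x d * W * (g (T.sg d) * E (t.tw x (T.sg d))) := by rw [mul_assoc]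
        _ = t.H x d * W * (t.H x (T.sg d) * E (x (T.sg d)) * g (T.io (T.sg d))) := by
            rw [← this]
        _ = _ := by rw [← mul_assoc]
    rw [htl] at e1
    have e2 : step true (t.tw x (T.sg d)) = (g d)⁻¹ * (g d * step true (t.tw x (T.sg d))) := by
      group
    rw [e2, e1, hn]
    group
  · have hlt : i < t.c d := by omega
    have hb : Tri.sbit t.c (d, i) = false := by simp [Tri.sbit]; omega
    have hn : (T.snext t.c (d, i)).1 = T.io (T.sg (T.sg d)) := by simp [Tri.snext, hlt]
    have htl := (hT T t x hx d i hv).2 hlt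
    have ht : T.turn false d = T.sg (T.sg d) := rfl
    rw [hb, ht]
    have e1 : g d * step false (t.tw x (T.sg (T.sg d))) =
        t.H x d * W * (t.H x (T.sg d) * W) *
          (t.H x (T.sg (T.sg d)) * E (x (T.sg (T.sg d)))) * g (T.io (T.sg (T.sg d))) := by
      have h1 := (hg d).1
      have h2 := (hg (T.sg d)).1
      have h3 := (hg (T.sg (T.sg d))).2
      rw [← WWE]
      calc g d * (W * W * E (t.tw x (T.sg (T.sg d))))
          = (g d * W) * W * E (t.tw x (T.sg (T.sg d))) := by group
        _ = t.H x d * W * (g (T.sg d) * W) * E (t.tw x (T.sg (T.sg d))) := by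
            rw [← h1]; group
        _ = t.H x d * W * (t.H x (T.sg d) * W) *
              (g (T.sg (T.sg d)) * E (t.tw x (T.sg (T.sg d)))) := by
            rw [← h2]; group
        _ = _ := by rw [← h3]; group
    rw [htl] at e1
    have e2 : step false (t.tw x (T.sg (T.sg d))) =
        (g d)⁻¹ * (g d * step false (t.tw x (T.sg (T.sg d)))) := by
      group
    rw [e2, e1, hn]
    group

/-- `n` steps of a strand in the twisted surface. -/
theorem loopn (hT : S_tele) (T : Tri D) (t : TD T) (x : D → ℝ)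
    (hx : ∀ d, x (T.io d) = x d) (g : D → SL)
    (hg : ∀ d, t.H x d * W * g (T.sg d) = g d * W ∧
      t.H x d * E (x d) * g (T.io d) = g d * E (t.tw x d)) : ∀ (n : ℕ) (v : D × ℕ),
    v.2 < T.num t.c v.1 →
    T.hol (t.tw x) (T.itin t.c n v) v.1 =
      (g v.1)⁻¹ * t.Pd x v.1 v.2 * T.hol x (T.itin t.c n v) v.1 *
        (t.Pd x ((T.snext t.c)^[n] v).1 ((T.snext t.c)^[n] v).2)⁻¹ *
          g ((T.snext t.c)^[n] v).1 := by
  intro n
  induction n with
  | zero =>
    intro v _
    simp only [Tri.itin, Tri.hol, Function.iterate_zero, id]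
    group
  | succ n ih =>
    intro v hv
    have h1 := ih (T.snext t.c v) (snext_lt T t.c t.hc v hv)
    have h2 := onestep hT T t x hx g hg v hv
    simp only [Tri.itin, Tri.hol, Function.iterate_succ, Function.comp]
    rw [nxt_sbit, h1, h2]
    group

theorem loop (hT : S_tele) : S_loop := by
  intro D _ _ T t x hx g hg d i hi
  have h := loopn hT T t x hx g hg t.P (d, i) hi
  rw [t.per d i hi] at h
  exact h

end Run7.h483.DG
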